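import Mathlib
import Pool.Agent.Lib_helper25.POS.Defs
import Pool.Agent.Lib_helper13.PL.KKT
import Pool.Agent.Lib_helper28.GL.Glue

/-!
# Theorem ST: definitions

`hg chi x` : height of `x`; `missp`, `missn`, `missm` : numbers of missing pairs;
`Maj K B` : union of the cosets of `K` of which `B` contains more than half;
`APS K a jm jp X` : `X` is the union of the cosets `i a + K`, `-jm ≤ i ≤ jp`.
-/

set_option autoImplicit false

namespace Pool.Agent.ST

open Finset Pool.Agent.Lib_helper13.PL Pool.Agent.POS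

section
variable {G : Type*} [AddCommGroup G]

/-- the height of `x` -/
def hg {m : ℕ} (chi : G →+ ZMod m) (x : G) : ℤ := (chi x).valMinAbs

/-- `X` is the union of the cosets `i a + K`, `-jm ≤ i ≤ jp` -/
def APS (K : AddSubgroup G) (a : G) (jm jp : ℕ) (X : Finset G) : Prop :=
  ∀ x, x ∈ X ↔ ∃ i : ℤ, -(jm : ℤ) ≤ i ∧ i ≤ (jp : ℤ) ∧ x - i • a ∈ K

variable [DecidableEq G]

/-- pairs of positive height, the first one lower, with the difference not in `B` -/
def missp {m : ℕ} (chi : G →+ ZMod m) (B : Finset G) : ℤ :=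
  (((B ×ˢ B).filter (fun p => 0 < hg chi p.1 ∧ hg chi p.1 < hg chi p.2 ∧ p.2 - p.1 ∉ B)).card : ℤ)

/-- pairs of negative height, the first one smaller in absolute value, with the difference
not in `B` -/
def missn {m : ℕ} (chi : G →+ ZMod m) (B : Finset G) : ℤ :=
  (((B ×ˢ B).filter (fun p => hg chi p.2 < hg chi p.1 ∧ hg chi p.1 < 0 ∧ p.2 - p.1 ∉ B)).card : ℤ)

/-- pairs (positive, negative) with the sum not in `B` -/
def missm {m : ℕ} (chi : G →+ ZMod m) (B : Finset G) : ℤ :=
  (((B ×ˢ B).filter (fun p => 0 < hg chi p.1 ∧ hg chi p.2 < 0 ∧ p.1 + p.2 ∉ B)).card : ℤ)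

open Classical in
/-- the union of the cosets of `K` of which `B` contains more than half -/
noncomputable def Maj [Fintype G] (K : AddSubgroup G) (B : Finset G) : Finset G :=
  univ.filter (fun x => (Nat.card K : ℤ) < 2 * th K B x)

end

end Pool.Agent.ST
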