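import Mathlib
import Pool.Agent.Lib_helper28.ST.Defs

/-!
# Theorem ST: the bound of the profile
-/

set_option autoImplicit false

namespace Pool.Agent.ST

/-- the bound of the profile: `p₀` missing in `K`, `P±` missing, `R±` additional elements on the two
sides, `N` cosets -/
def UB (k N p0 P P' R R' δ : ℤ) : ℤ :=
  k ^ 2 - 6 * k * p0 + 9 * p0 ^ 2 - 2 * k * p0 * (N - 1) - 6 * k * (P + P')
    + 6 * (P ^ 2 + P' ^ 2) + 10 * p0 * (P + P') - 6 * k * (R + R') + 6 * (R ^ 2 + R' ^ 2)
    + 6 * p0 * (R + R') - (δ * k + R - P - R' + P') ^ 2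

end Pool.Agent.ST
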