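import Mathlib
import Pool.Agent.Lib_helper28.ST.L.SA1
import Pool.Agent.Lib_helper28.ST.L.SA2
import Pool.Agent.Lib_helper28.ST.L.SB1
import Pool.Agent.Lib_helper28.ST.L.SB2
import Pool.Agent.Lib_helper28.ST.L.SC1
import Pool.Agent.Lib_helper28.ST.L.SC2
import Pool.Agent.Lib_helper28.ST.L.SC3
import Pool.Agent.Lib_helper28.ST.L.SD1
import Pool.Agent.Lib_helper28.ST.L.SD2
import Pool.Agent.Lib_helper28.ST.L.SD3
import Pool.Agent.Lib_helper28.ST.L.SD4
import Pool.Agent.Lib_helper28.ST.L.SE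
import Pool.Agent.Lib_helper28.ST.L.SF1
import Pool.Agent.Lib_helper28.ST.L.SF2
import Pool.Agent.Lib_helper28.ST.L.SG1
import Pool.Agent.Lib_helper28.ST.L.SG2
import Pool.Agent.Lib_helper28.ST.L.SG3
import Pool.Agent.Lib_helper28.ST.L.SG4
import Pool.Agent.Lib_helper28.ST.L.SH1
import Pool.Agent.Lib_helper28.ST.L.SH2
import Pool.Agent.Lib_helper28.ST.L.SH3
import Pool.Agent.Lib_helper28.ST.L.SH4
import Pool.Agent.Lib_helper28.ST.L.SH5
import Pool.Agent.Lib_helper28.GL.Wit

/-!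
# Theorem ST: assembly
-/

set_option autoImplicit false

namespace Pool.Agent.ST

open Finset Pool.Agent.Lib_helper13.PL Pool.Agent.POS

section asm
variable {G : Type*} [AddCommGroup G] [DecidableEq G]

theorem aps_neg {K : AddSubgroup G} {a : G} {jm jp : ℕ} {X : Finset G} (h : APS K a jm jp X) :
    APS K (-a) jp jm X := by
  intro x
  rw [h x]
  constructor
  · rintro ⟨i, h1, h2, h3⟩
    exact ⟨-i, by linarith, by linarith, by simpa using h3⟩
  · rintro ⟨i, h1, h2, h3⟩
    exact ⟨-i, by linarith, by linarith, by simpa using h3⟩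

theorem ker_al {q : ℕ} [NeZero q] (phi : G →+ ZMod q) (a : G) (ha : phi a = 1)
    (K : AddSubgroup G) (hker : ∀ x, phi x = 0 ↔ x ∈ K) : GL.Alive K q := by
  refine ⟨a, fun i h0 h1 h2 => ?_⟩
  rw [← hker, map_nsmul, ha, nsmul_eq_mul, mul_one, ZMod.natCast_eq_zero_iff] at h2
  exact absurd (Nat.le_of_dvd h0 h2) (not_le.2 h1)

/-- the witness, odd case -/
theorem wit_odd {K : AddSubgroup G} {q j b : ℕ} {t F : ℤ} (hal : GL.Alive K q)
    (hb : (b : ℤ) = (2 * j + 1) * Nat.card K + t) (ht1 : 10 * t ≤ 9 * Nat.card K)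
    (ht2 : -(6 * (Nat.card K : ℤ)) < 10 * t) (hq : 3 * j < q) (hq2 : 0 ≤ t → 3 * j + 2 ≤ q)
    (hF : F ≤ ((Nat.card K : ℤ) - |t|) * ((Nat.card K : ℤ) - 5 * |t|)) : GL.Bd G b F := by
  refine ⟨_, Or.inr ⟨K, j, t.natAbs, ?_, ?_, ?_⟩, hF⟩
  · omega
  · rw [Int.natCast_natAbs]
  · rcases le_or_gt 0 t with h | h
    · right
      refine ⟨?_, hal.mono (hq2 h)⟩
      have : ((b : ℕ) : ℤ) = (((2 * j + 1) * Nat.card K + t.natAbs : ℕ) : ℤ) := by
        rw [hb]; push_cast [Int.natCast_natAbs, abs_of_nonneg h]; ring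
      exact_mod_cast this
    · left
      refine ⟨?_, hal.mono hq⟩
      have : ((b + t.natAbs : ℕ) : ℤ) = (((2 * j + 1) * Nat.card K : ℕ) : ℤ) := by
        push_cast [Int.natCast_natAbs, abs_of_neg h]; rw [hb]; ring
      exact_mod_cast this

/-- the witness, even case -/
theorem wit_even {K : AddSubgroup G} {q j b : ℕ} {t F : ℤ} (hal : GL.Alive K q)
    (hb : (b : ℤ) = (2 * j + 2) * Nat.card K + t) (ht1 : 10 * t ≤ 9 * Nat.card K)
    (ht2 : -(6 * (Nat.card K : ℤ)) < 10 * t) (hq : 3 * j + 4 ≤ q)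
    (hF : F ≤ |t| * (5 * |t| - 4 * (Nat.card K : ℤ))) : GL.Bd G b F := by
  rcases le_or_gt 0 t with h | h
  · refine ⟨_, Or.inr ⟨K, j + 1, (Nat.card K - t).natAbs, ?_, rfl, Or.inl ⟨?_, hal.mono (by omega)⟩⟩, ?_⟩
    · omega
    · have : ((b + ((Nat.card K : ℤ) - t).natAbs : ℕ) : ℤ) =
          (((2 * (j + 1) + 1) * Nat.card K : ℕ) : ℤ) := by
        push_cast [Int.natCast_natAbs, abs_of_nonneg (by omega : 0 ≤ (Nat.card K : ℤ) - t)]
        rw [hb]; ring
      exact_mod_cast this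
    · rw [Int.natCast_natAbs, abs_of_nonneg (by omega : 0 ≤ (Nat.card K : ℤ) - t)]
      rw [abs_of_nonneg h] at hF
      refine hF.trans (le_of_eq (by ring))
  · refine ⟨_, Or.inr ⟨K, j, ((Nat.card K : ℤ) + t).natAbs, ?_, rfl, Or.inr ⟨?_, hal.mono (by omega)⟩⟩, ?_⟩
    · omega
    · have : ((b : ℕ) : ℤ) =
          (((2 * j + 1) * Nat.card K + ((Nat.card K : ℤ) + t).natAbs : ℕ) : ℤ) := by
        push_cast [Int.natCast_natAbs, abs_of_nonneg (by omega : 0 ≤ (Nat.card K : ℤ) + t)]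
        rw [hb]; ring
      exact_mod_cast this
    · rw [Int.natCast_natAbs, abs_of_nonneg (by omega : 0 ≤ (Nat.card K : ℤ) + t)]
      rw [abs_of_neg h] at hF
      refine hF.trans (le_of_eq (by ring))

/-- the direct part: `G / K` cyclic -/
theorem direct [Fintype G] {q : ℕ} [NeZero q] (phi : G →+ ZMod q) (K : AddSubgroup G)
    (hker : ∀ x, phi x = 0 ↔ x ∈ K) (a : G) (ha : phi a = 1) (jm jp : ℕ) (hj : jm ≤ jp)
    (hj2 : jp ≤ jm + 1) (h1 : 1 ≤ jp) (X B : Finset G) (hX : APS K a jm jp X)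
    (hXc : (X.card : ℤ) = (jp + jm + 1) * Nat.card K)
    (hcard : Nat.card G = q * Nat.card K) (hn : 25 * B.card ≤ 12 * Nat.card G)
    (hdev : (jm = jp ∧ 100 * (((X \ B).card : ℤ) + (B \ X).card) ≤ 89 * Nat.card K ∧
        10 * ((X \ B).card : ℤ) < 6 * Nat.card K) ∨
      (jp = jm + 1 ∧ 100 * (((X \ B).card : ℤ) + (B \ X).card) ≤ 71 * Nat.card K ∧
        1000 * ((X \ B).card : ℤ) ≤ 525 * Nat.card K))
    (hp0 : 4 * (((X \ B).filter (fun x => hg phi x = 0)).card : ℤ) ≤ Nat.card K)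
    (hrem : q = 6 → 5 * GL.FF B + 13 * (((B.filter (fun x => (q : ℤ) ≤ 3 * |hg phi x|)).card : ℤ)) ^ 2 ≤
      5 * GL.FF (B.filter (fun x => 3 * |hg phi x| < (q : ℤ)))) :
    GL.Bd G B.card (GL.FF B) := by
  classical
  set k : ℤ := (Nat.card K : ℤ) with hk
  have hkpos : 0 < k := by rw [hk]; exact_mod_cast (Nat.card_pos : 0 < Nat.card K)
  set B1 := B.filter (fun x => 3 * |hg phi x| < (q : ℤ)) with hB1
  set R := B.filter (fun x => (q : ℤ) ≤ 3 * |hg phi x|) with hR
  have hdis : Disjoint B1 R := by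
    rw [disjoint_left]
    intro x h2 h3
    have h4 := (mem_filter.1 h2).2
    have h5 := (mem_filter.1 h3).2
    linarith
  have hun : B1 ∪ R = B := by
    ext x
    simp only [hB1, hR, mem_union, mem_filter]
    constructor
    · rintro (h | h) <;> exact h.1
    · intro h
      rcases lt_or_ge (3 * |hg phi x|) (q : ℤ) with h2 | h2
      · left; exact ⟨h, h2⟩
      · right; exact ⟨h, h2⟩
  -- the size of `B`
  have hXB := card_sdiff_add_card_inter X B
  have hBX := card_sdiff_add_card_inter B X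
  rw [inter_comm] at hBX
  set t : ℤ := ((B \ X).card : ℤ) - (X \ B).card with ht
  have hbt : (B.card : ℤ) = (jp + jm + 1) * k + t := by
    have e1 : ((X \ B).card : ℤ) + ((X ∩ B).card : ℤ) = X.card := by exact_mod_cast hXB
    have e2 : ((B \ X).card : ℤ) + ((X ∩ B).card : ℤ) = B.card := by exact_mod_cast hBX
    rw [ht]; linarith
  have hn' : 25 * ((jp + jm + 1) * k + t) ≤ 12 * (q * k) := by
    rw [← hbt]
    have : (25 * B.card : ℤ) ≤ 12 * Nat.card G := by exact_mod_cast hn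
    rw [hcard] at this
    push_cast at this
    linarith
  have hal := ker_al phi a ha K hker
  have hZ0 : (0 : ℤ) ≤ ((B \ X).card : ℤ) := by positivity
  have hA0 : (0 : ℤ) ≤ ((X \ B).card : ℤ) := by positivity
  -- the numbers
  have hi0 : ∃ i0 : ℕ, q ≤ 3 * i0 := ⟨q, by omega⟩
  have hq3 : 3 * jp < q ∧ 2 * (jp + jm + 1) ≤ q := by
    rcases hdev with ⟨he, _, h3⟩ | ⟨he, _, h3⟩
    · subst he
      have hh := di_odd q jm q k t h1 (by omega) hkpos (by omega) (by
        have : ((jm : ℤ) + jm + 1) = 2 * jm + 1 := by ring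
        rw [this] at hn'; exact hn')
      exact ⟨hh.2.1, by omega⟩
    · subst he
      have hh := di_even q jm q k t (by omega) hkpos (by omega) (by
        have : (((jm + 1 : ℕ) : ℤ) + jm + 1) = 2 * jm + 2 := by push_cast; ring
        rw [this] at hn'; exact hn')
      exact ⟨hh.2.1, by omega⟩
  -- inner elements
  have hXin : ∀ x ∈ X, 3 * |hg phi x| < (q : ℤ) := by
    intro x hx
    obtain ⟨i, hi1, hi2, hi3⟩ := (hX x).1 hx
    have h5 : phi x = ((i : ℤ) : ZMod q) := by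
      have h6 := (hker _).2 hi3
      rw [map_sub, map_zsmul, ha, sub_eq_zero] at h6
      rw [h6]; simp
    have h7 : |i| ≤ jp := abs_le.2 ⟨by omega, hi2⟩
    have h8 : hg phi x = i := by
      unfold hg
      rw [h5]
      rw [ZMod.valMinAbs_spec]
      refine ⟨rfl, ?_, ?_⟩ <;> have := abs_le.1 h7 <;> omega
    rw [h8]
    have := hq3.1
    omega
  have hXB1 : X \ B1 = X \ B := by
    ext x
    simp only [hB1, mem_sdiff, mem_filter]
    constructor
    · rintro ⟨h2, h3⟩
      exact ⟨h2, fun h4 => h3 ⟨h4, hXin x h2⟩⟩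
    · rintro ⟨h2, h3⟩
      exact ⟨h2, fun h4 => h3 h4.1⟩
  have hBX1 : ((B \ X).card : ℤ) = ((B1 \ X).card : ℤ) + R.card := by
    have h2 : B \ X = (B1 \ X) ∪ R := by
      ext x
      simp only [hB1, hR, mem_union, mem_filter, mem_sdiff]
      constructor
      · rintro ⟨h2, h3⟩
        rcases lt_or_ge (3 * |hg phi x|) (q : ℤ) with h4 | h4
        · left; exact ⟨⟨h2, h4⟩, h3⟩
        · right; exact ⟨h2, h4⟩
      · rintro (⟨⟨h2, _⟩, h3⟩ | ⟨h2, h3⟩)
        · exact ⟨h2, h3⟩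
        · refine ⟨h2, fun h4 => ?_⟩
          have := hXin x h4
          linarith
    rw [h2, card_union_of_disjoint]
    · push_cast; rfl
    · exact disjoint_of_subset_left sdiff_subset hdis
  have hB1nw : NoWrap phi B1 := fun x hx => (mem_filter.1 hx).2
  -- sizes of the parts
  set p0 : ℤ := (((X \ B).filter (fun x => hg phi x = 0)).card : ℤ) with hp0d
  set P : ℤ := (((X \ B).filter (fun x => 0 < hg phi x)).card : ℤ) with hPd
  set P' : ℤ := (((X \ B).filter (fun x => hg phi x < 0)).card : ℤ) with hPd'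
  set Q1 : ℤ := (((B1 \ X).filter (fun x => 0 < hg phi x)).card : ℤ) with hQd
  set Q2 : ℤ := (((B1 \ X).filter (fun x => hg phi x < 0)).card : ℤ) with hQd'
  have hsplit : ∀ S : Finset G, (S.card : ℤ) = ((S.filter (fun x => hg phi x = 0)).card : ℤ) +
      (S.filter (fun x => 0 < hg phi x)).card + (S.filter (fun x => hg phi x < 0)).card := by
    intro S
    have e1 := card_filter_add_card_filter_not (s := S) (fun x => hg phi x = 0)
    have e2 := card_filter_add_card_filter_not (s := S.filter (fun x => ¬ hg phi x = 0))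
      (fun x => 0 < hg phi x)
    rw [filter_filter, filter_filter] at e2
    have e3 : S.filter (fun x => ¬ hg phi x = 0 ∧ 0 < hg phi x) =
        S.filter (fun x => 0 < hg phi x) := filter_congr fun x _ => by constructor <;> omega
    have e4 : S.filter (fun x => ¬ hg phi x = 0 ∧ ¬ 0 < hg phi x) =
        S.filter (fun x => hg phi x < 0) := filter_congr fun x _ => by constructor <;> omega
    rw [e3, e4] at e2
    have e5 : (S.card : ℤ) = (S.filter (fun x => hg phi x = 0)).card +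
        (S.filter (fun x => ¬ hg phi x = 0)).card := by exact_mod_cast e1.symm
    have e6 : ((S.filter (fun x => ¬ hg phi x = 0)).card : ℤ) =
        (S.filter (fun x => 0 < hg phi x)).card + (S.filter (fun x => hg phi x < 0)).card := by
      exact_mod_cast e2.symm
    linarith
  have hAsum : ((X \ B).card : ℤ) = p0 + P + P' := hsplit _
  have hQsum : ((B1 \ X).card : ℤ) = Q1 + Q2 := by
    have h2 := hsplit (B1 \ X)
    have h3 : ((B1 \ X).filter (fun x => hg phi x = 0)) = ∅ := by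
      rw [filter_eq_empty_iff]
      intro x hx h4
      have h5 := (mem_sdiff.1 hx).2
      apply h5
      rw [hX]
      refine ⟨0, by omega, by omega, ?_⟩
      rw [zero_smul, sub_zero, ← hker]
      exact (ZMod.valMinAbs_eq_zero _).1 h4
    rw [h3] at h2
    simp only [card_empty, Nat.cast_zero, zero_add] at h2
    exact h2
  have hpb := prof_bound phi K hker a ha jm jp (by omega) hq3.1 X B1 hX hB1nw k hk (by
    rw [hXB1]
    rcases hdev with ⟨_, _, h3⟩ | ⟨_, _, h3⟩ <;> linarith)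
  rw [hXB1] at hpb
  have hp00 : 0 ≤ p0 := Int.natCast_nonneg _
  have hP0 : 0 ≤ P := Int.natCast_nonneg _
  have hP0' : 0 ≤ P' := Int.natCast_nonneg _
  have hQ0 : 0 ≤ Q1 := Int.natCast_nonneg _
  have hQ0' : 0 ≤ Q2 := Int.natCast_nonneg _
  have hw0 : (0 : ℤ) ≤ (R.card : ℤ) := Int.natCast_nonneg _
  have hB1c : (B1.card : ℤ) = (jp + jm + 1) * k + (Q1 + Q2) - (p0 + P + P') := by
    have e1 : (B.card : ℤ) = B1.card + R.card := by
      rw [← hun, card_union_of_disjoint hdis]; push_cast; rfl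
    have e2 : t = (Q1 + Q2) + R.card - (p0 + P + P') := by
      rw [ht, hBX1, hQsum, hAsum]
    rw [hbt, e2] at e1
    linarith
  have htri : ∀ x ∈ R, ∃ i : ℕ, q ≤ 3 * i ∧ 3 * (B1.card : ℤ) - (2 * dlt B1 x + dlt' B1 x) ≤
      k * (((2 * jp + 1 - i) + 2 * (jp + jm + 1 - i) : ℕ) : ℤ) + 6 * (Q1 + Q2) := by
    intro x hx
    refine ⟨(hg phi x).natAbs, ?_, ?_⟩
    · have h2 := (mem_filter.1 hx).2
      have h3 : ((hg phi x).natAbs : ℤ) = |hg phi x| := Int.natCast_natAbs _
      rw [← h3] at h2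
      exact_mod_cast h2
    · have h3 := tri_le phi K hker a ha jm jp hj hj2 hq3.2 X B1 hX x (hg phi x).natAbs
        (Int.natCast_natAbs _)
      rw [hQsum] at h3
      exact h3
  have hfin : ∀ d : ℤ, (∀ x ∈ R, 3 * (B1.card : ℤ) - (2 * dlt B1 x + dlt' B1 x) ≤
      k * d + 6 * (Q1 + Q2)) → GL.FF B ≤ GL.FF B1 + 4 * (R.card : ℤ) * (k * d + 6 * (Q1 + Q2))
        - 6 * ((jp + jm + 1) * k + (Q1 + Q2) - (p0 + P + P')) * R.card + 9 * (R.card : ℤ) ^ 2 := by
    intro d hd
    have h2 := remove_outer B1 R hdis _ hd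
    rw [hun, hB1c] at h2
    linarith
  rcases hdev with ⟨he, h2, h3⟩ | ⟨he, h2, h3⟩
  · subst he
    have hN : ((jm : ℤ) + jm + 1) = 2 * jm + 1 := by ring
    rw [hN] at hn' hbt hpb hfin hB1c
    -- choose d
    have key : ∀ d : ℤ, 0 ≤ d → (∀ i : ℕ, q ≤ 3 * i →
        (((2 * jm + 1 - i) + 2 * (jm + jm + 1 - i) : ℕ) : ℤ) ≤ d) →
        ((0 ≤ t ∧ 4 * d ≤ 6 * (2 * jm + 1) - 18) ∨ (t < 0 ∧ 4 * d ≤ 6 * (2 * (jm : ℤ) + 1) - 6)) →
        GL.FF B ≤ (k - |t|) * (k - 5 * |t|) := by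
      intro d hd0 hd1 hd2
      refine final_odd k (2 * jm + 1) p0 P P' Q1 Q2 R.card d (GL.FF B) (GL.FF B1)
        (p0 + P + P') (Q1 + Q2) t hkpos (by omega) hp00 hP0 hP0' hQ0 hQ0' hw0 rfl rfl ?_ ?_ ?_ ?_
        hd0 hd2 ?_
      · rw [ht, hBX1, hQsum, hAsum]
      · rw [hAsum, hBX1, hQsum] at h2
        linarith
      · rw [hAsum] at h3; linarith
      · rw [sub_self] at hpb; exact hpb
      · have h4 := hfin d (fun x hx => by
          obtain ⟨i, hi1, hi2⟩ := htri x hx
          refine hi2.trans ?_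
          have := mul_le_mul_of_nonneg_left (hd1 i hi1) hkpos.le
          linarith)
        linarith
    have hF : GL.FF B ≤ (k - |t|) * (k - 5 * |t|) := by
      rcases le_or_gt 0 t with h0 | h0
      · refine key ((6 * (2 * jm + 1) - 18) / 4) (by omega) ?_ (Or.inl ⟨h0, by omega⟩)
        intro i hi
        have hh := (di_odd q jm i k t h1 hi hkpos (by omega) hn').2.2.1 h0
        omega
      · refine key ((6 * (2 * jm + 1) - 6) / 4) (by omega) ?_ (Or.inr ⟨h0, by omega⟩)
        intro i hi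
        have hh := (di_odd q jm i k t h1 hi hkpos (by omega) hn').2.2.2 h0
        omega
    refine wit_odd hal hbt (by omega) (by omega) (by omega) ?_ hF
    intro h0
    have h5 : 25 * (2 * (jm : ℤ) + 1) ≤ 12 * q := by
      by_contra hc
      push Not at hc
      nlinarith
    omega
  · subst he
    have hN : (((jm + 1 : ℕ) : ℤ) + jm + 1) = 2 * jm + 2 := by push_cast; ring
    rw [hN] at hn' hbt hpb hfin hB1c
    have key : ∀ d : ℤ, 0 ≤ d → (∀ x ∈ R, 3 * (B1.card : ℤ) - (2 * dlt B1 x + dlt' B1 x) ≤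
        k * d + 6 * (Q1 + Q2)) →
        ((0 ≤ t ∧ 4 * d ≤ 6 * (2 * jm + 2) - 12) ∨ (t < 0 ∧ 4 * d ≤ 6 * (2 * (jm : ℤ) + 2) - 8) ∨
          (0 ≤ t ∧ 5 * t ≤ 2 * k ∧ 4 * d ≤ 6 * (2 * (jm : ℤ) + 2) - 8) ∨
          (0 ≤ t ∧ 4 * d ≤ 6 * (2 * (jm : ℤ) + 2) - 8 ∧ 5 * GL.FF B + 13 * (R.card : ℤ) ^ 2 ≤
            5 * GL.FF B1)) →
        GL.FF B ≤ |t| * (5 * |t| - 4 * k) := by
      intro d hd0 hd1 hd2
      refine final_even k (2 * jm + 2) p0 P P' Q1 Q2 R.card d (GL.FF B) (GL.FF B1)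
        (p0 + P + P') (Q1 + Q2) t hkpos (by omega) hp00 hP0 hP0' hQ0 hQ0' hw0 rfl rfl ?_ ?_ ?_ ?_
        ?_ hd0 hd2 ?_
      · rw [ht, hBX1, hQsum, hAsum]
      · rw [hAsum, hBX1, hQsum] at h2
        linarith
      · rw [hAsum] at h3; linarith
      · exact hp0
      · have e : (((jm + 1 : ℕ) : ℤ) - jm) = 1 := by push_cast; ring
        rw [e] at hpb; exact hpb
      · have h4 := hfin d hd1
        linarith
    have hF : GL.FF B ≤ |t| * (5 * |t| - 4 * k) := by
      rcases le_or_gt 0 t with h0 | h0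
      · by_cases hall : ∀ x ∈ R, 3 * (B1.card : ℤ) - (2 * dlt B1 x + dlt' B1 x) ≤
            k * ((6 * (2 * jm + 2) - 12) / 4) + 6 * (Q1 + Q2)
        · exact key _ (by omega) hall (Or.inl ⟨h0, by omega⟩)
        · push Not at hall
          obtain ⟨x, hx, hx2⟩ := hall
          have hall2 : ∀ x ∈ R, 3 * (B1.card : ℤ) - (2 * dlt B1 x + dlt' B1 x) ≤
            k * ((6 * (2 * jm + 2) - 8) / 4) + 6 * (Q1 + Q2) := by
            intro z hz
            obtain ⟨i, hi1, hi2⟩ := htri z hz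
            refine hi2.trans ?_
            have hh := (di_even q jm i k t hi1 hkpos (by omega) hn').2.2.1 h0
            have h6 : (((2 * (jm + 1) + 1 - i) + 2 * (jm + 1 + jm + 1 - i) : ℕ) : ℤ) ≤
                (6 * (2 * jm + 2) - 8) / 4 := by
              rcases hh with hh | hh <;> omega
            have := mul_le_mul_of_nonneg_left h6 hkpos.le
            linarith
          obtain ⟨i, hi1, hi2⟩ := htri x hx
          have hh := (di_even q jm i k t hi1 hkpos (by omega) hn').2.2.1 h0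
          rcases hh with hh | ⟨hh, hh2⟩
          · exfalso
            have h6 : (((2 * (jm + 1) + 1 - i) + 2 * (jm + 1 + jm + 1 - i) : ℕ) : ℤ) ≤
                (6 * (2 * jm + 2) - 12) / 4 := by omega
            have := mul_le_mul_of_nonneg_left h6 hkpos.le
            linarith
          · rcases hh2 with hh2 | hh2
            · exact key _ (by omega) hall2 (Or.inr (Or.inr (Or.inl ⟨h0, hh2, by omega⟩)))
            · exact key _ (by omega) hall2 (Or.inr (Or.inr (Or.inr ⟨h0, by omega, hrem hh2⟩)))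
      · refine key ((6 * (2 * jm + 2) - 8) / 4) (by omega) ?_ (Or.inr (Or.inl ⟨h0, by omega⟩))
        intro z hz
        obtain ⟨i, hi1, hi2⟩ := htri z hz
        refine hi2.trans ?_
        have hh := (di_even q jm i k t hi1 hkpos (by omega) hn').2.2.2 h0
        have h6 : (((2 * (jm + 1) + 1 - i) + 2 * (jm + 1 + jm + 1 - i) : ℕ) : ℤ) ≤
            (6 * (2 * jm + 2) - 8) / 4 := by omega
        have := mul_le_mul_of_nonneg_left h6 hkpos.le
        linarith
    have hq := (di_even q jm q k t (by omega) hkpos (by omega) hn').1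
    have hq2 := (di_even q jm q k t (by omega) hkpos (by omega) hn').2.1
    exact wit_even hal hbt (by omega) (by omega) (by omega) hF

end asm

end Pool.Agent.ST
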