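import Mathlib
import Pool.Agent.Lib_helper28.ST.Asm

/-!
# Theorem ST
-/

set_option autoImplicit false

namespace Pool.Agent.ST

open Finset Pool.Agent.Lib_helper13.PL Pool.Agent.POS

section near
variable {G : Type*} [AddCommGroup G] [DecidableEq G]

theorem six_aux : ∀ z c i : ZMod 6, i * c = 1 → |(z * c).valMinAbs| = |z.valMinAbs| := by
  decide

/-- if `q = 6` the two heights agree in absolute value -/
theorem six_hg [Fintype G] {m : ℕ} [NeZero m] (chi : G →+ ZMod m)
    (hsurj : Function.Surjective chi) (hm : 4 ≤ m) (K : AddSubgroup G)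
    (hKL : ∀ x ∈ K, chi x = 0) (phi : G →+ ZMod 6) (a : G) (ha : phi a = 1)
    (hker : ∀ x, phi x = 0 ↔ x ∈ K) : m = 6 ∧ ∀ x, |hg chi x| = |hg phi x| := by
  have h6 : 6 • chi a = 0 := by
    rw [← map_nsmul]
    apply hKL
    rw [← hker, map_nsmul, ha]
    decide
  have hx : ∀ x, chi x = (phi x).valMinAbs • chi a := by
    intro x
    have h1 : x - (phi x).valMinAbs • a ∈ K := by
      rw [← hker, map_sub, map_zsmul, ha]
      simp
    have h2 := hKL _ h1
    rw [map_sub, map_zsmul, sub_eq_zero] at h2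
    exact h2
  have hm6 : m = 6 := by
    obtain ⟨g, hg⟩ := hsurj 1
    have h1 : 6 • (1 : ZMod m) = 0 := by
      rw [← hg, hx g, smul_comm, h6, smul_zero]
    rw [nsmul_eq_mul, mul_one, ZMod.natCast_eq_zero_iff] at h1
    have := Nat.le_of_dvd (by norm_num) h1
    have h2 : m = 4 ∨ m = 5 ∨ m = 6 := by omega
    rcases h2 with h2 | h2 | h2
    · subst h2; omega
    · subst h2; omega
    · exact h2
  subst hm6
  refine ⟨rfl, fun x => ?_⟩
  obtain ⟨g, hg1⟩ := hsurj 1
  have h1 : phi g * chi a = 1 := by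
    rw [← hg1, hx g, zsmul_eq_mul]
    congr 1
    exact ((ZMod.coe_valMinAbs _).symm)
  unfold hg
  rw [← six_aux (phi x) (chi a) (phi g) h1]
  congr 2
  rw [hx x, zsmul_eq_mul]
  congr 1
  exact ZMod.coe_valMinAbs _

/-- **Theorem ST.** -/
theorem st_near [Fintype G] {m : ℕ} [NeZero m] (chi : G →+ ZMod m)
    (hsurj : Function.Surjective chi) (hm : 4 ≤ m)
    (IH : ∀ M : AddSubgroup G, M ≠ ⊤ → ∀ B' : Finset M, GL.Bd M B'.card (GL.FF B'))
    (B : Finset G) (K : AddSubgroup G) (KK : Finset G) (hKK : ∀ x, x ∈ KK ↔ x ∈ K)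
    (hKL : ∀ x ∈ K, chi x = 0)
    (B' : Finset G) (hB'def : B' = B.filter (fun x => 3 * |hg chi x| < (m : ℤ)))
    (w : ℤ) (hw : w = ((B.filter (fun x => (m : ℤ) ≤ 3 * |hg chi x|)).card : ℤ))
    (h4 : 4 * (((KK \ lev chi B' 0).card : ℤ) + ((lev chi B' 0 \ KK).card : ℤ)) ≤ KK.card)
    (hrem : 5 * GL.FF B + 13 * w ^ 2 ≤ 5 * GL.FF B')
    (hF : -4 * (KK.card : ℤ) ^ 2 < 5 * GL.FF B)
    (hT : 4 * ((lev chi B' 0).card : ℤ) ≤ 3 * B'.card)
    (hTw : 7 * ((lev chi B' 0).card : ℤ) ≤ 4 * B.card)
    (hn : 25 * B.card ≤ 12 * Nat.card G) : GL.Bd G B.card (GL.FF B) := by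
  classical
  have hKc : KK.card = Nat.card K := by
    rw [Nat.card_eq_fintype_card]
    have : KK = univ.filter (fun x => x ∈ K) := by
      ext x; simp [hKK]
    rw [this, Fintype.card_subtype]
  obtain ⟨k, hk⟩ : ∃ k : ℤ, k = KK.card := ⟨_, rfl⟩
  obtain ⟨e, he⟩ : ∃ e : ℤ, e = ((KK \ lev chi B' 0).card : ℤ) + ((lev chi B' 0 \ KK).card : ℤ) :=
    ⟨_, rfl⟩
  rw [← he, ← hk] at h4
  rw [← hk] at hF
  have hkpos : 0 < k := by
    rw [hk, hKc]; exact_mod_cast (Nat.card_pos : 0 < Nat.card K)
  have he0 : 0 ≤ e := by rw [he]; positivity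
  have hw0 : 0 ≤ w := by rw [hw]; positivity
  have hkK : k = Nat.card K := by rw [hk, hKc]
  have hB' : NoWrap chi B' := by
    intro x hx
    rw [hB'def] at hx
    exact (mem_filter.1 hx).2
  -- `B` and `B'`
  set W := B.filter (fun x => (m : ℤ) ≤ 3 * |hg chi x|) with hW
  have hdis : Disjoint B' W := by
    rw [hB'def, disjoint_left]
    intro x h2 h3
    have h4 := (mem_filter.1 h2).2
    have h5 := (mem_filter.1 h3).2
    linarith
  have hun : B' ∪ W = B := by
    ext x
    simp only [hB'def, hW, mem_union, mem_filter]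
    constructor
    · rintro (h | h) <;> exact h.1
    · intro h
      rcases lt_or_ge (3 * |hg chi x|) (m : ℤ) with h2 | h2
      · left; exact ⟨h, h2⟩
      · right; exact ⟨h, h2⟩
  have hBc : (B.card : ℤ) = B'.card + w := by
    rw [hw, ← hun, card_union_of_disjoint hdis]
    push_cast
    rfl
  have hsubB : B' ⊆ B := by rw [hB'def]; exact filter_subset _ _
  have hFw : 13 * w ^ 2 - 4 * k ^ 2 < 5 * GL.FF B' := by linarith
  have hF' : -4 * k ^ 2 < 5 * GL.FF B' := by
    have := sq_nonneg w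
    linarith
  -- the budget
  obtain ⟨np, nm, hone, hcp, hcn, hbud⟩ := budget chi B' hB' K KK hKK hKL k e hk he h4 hF'
  obtain ⟨hz1, hz2⟩ := maj_zero chi B' K KK hKK hKL k e hk he h4
  set X := Maj K B' with hX
  obtain ⟨y, hy⟩ : ∃ y : ℤ, e + y = ((X \ B').card : ℤ) + ((B' \ X).card : ℤ) :=
    ⟨((X \ B').card : ℤ) + ((B' \ X).card : ℤ) - e, by ring⟩
  obtain ⟨hy0, hD, hbud2⟩ := hbud y hy
  have hm1 : 0 ≤ missp chi B' := by unfold missp; positivity
  have hm2 : 0 ≤ missn chi B' := by unfold missn; positivity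
  have hm3 : 0 ≤ missm chi B' := by unfold missm; positivity
  -- a second coset
  have hN : 1 ≤ np + nm := by
    by_contra hc
    have h1 : np = 0 := by omega
    have h2 : nm = 0 := by omega
    subst h1; subst h2
    refine no_single chi B' hB' K KK hKK k e w hk he h4 hw0 hFw hT (by rw [← hBc]; exact hTw) ?_
    intro x hx
    have e1 : (X.filter (fun x => 0 < hg chi x)) = ∅ := by
      rw [← card_eq_zero]
      have : (((X.filter (fun x => 0 < hg chi x)).card : ℕ) : ℤ) = 0 := by rw [hcp]; simp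
      exact_mod_cast this
    have e2 : (X.filter (fun x => hg chi x < 0)) = ∅ := by
      rw [← card_eq_zero]
      have : (((X.filter (fun x => hg chi x < 0)).card : ℕ) : ℤ) = 0 := by rw [hcn]; simp
      exact_mod_cast this
    by_contra h0
    have h3 : hg chi x ≠ 0 := fun h => h0 ((ZMod.valMinAbs_eq_zero _).1 h)
    rcases lt_or_gt_of_ne h3 with h | h
    · have : x ∈ X.filter (fun x => hg chi x < 0) := mem_filter.2 ⟨hx, h⟩
      rw [e2] at this
      exact absurd this (notMem_empty _)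
    · have : x ∈ X.filter (fun x => 0 < hg chi x) := mem_filter.2 ⟨hx, h⟩
      rw [e1] at this
      exact absurd this (notMem_empty _)
  -- the size of `X`
  have hXc : (X.card : ℤ) = (np + nm + 1) * k := by
    have e1 := card_filter_add_card_filter_not (s := X) (fun x => hg chi x = 0)
    have e2 := card_filter_add_card_filter_not (s := X.filter (fun x => ¬ hg chi x = 0))
      (fun x => 0 < hg chi x)
    rw [filter_filter, filter_filter] at e2
    have e3 : X.filter (fun x => ¬ hg chi x = 0 ∧ 0 < hg chi x) =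
        X.filter (fun x => 0 < hg chi x) := filter_congr fun x _ => by constructor <;> omega
    have e4 : X.filter (fun x => ¬ hg chi x = 0 ∧ ¬ 0 < hg chi x) =
        X.filter (fun x => hg chi x < 0) := filter_congr fun x _ => by constructor <;> omega
    rw [e3, e4] at e2
    have e5 : X.filter (fun x => hg chi x = 0) = KK := by
      ext x
      rw [mem_filter, hKK]
      constructor
      · rintro ⟨h1, h2⟩
        exact (hz1 x ((ZMod.valMinAbs_eq_zero _).1 h2)).1 h1
      · intro h1
        have h2 := hKL x h1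
        refine ⟨(hz1 x h2).2 h1, ?_⟩
        unfold hg; rw [h2]; exact ZMod.valMinAbs_zero _
    rw [e5] at e1
    have e6 : (X.card : ℤ) = k + ((X.filter (fun x => ¬ hg chi x = 0)).card : ℤ) := by
      rw [hk]; exact_mod_cast e1.symm
    have e7 : ((X.filter (fun x => ¬ hg chi x = 0)).card : ℤ) =
        (X.filter (fun x => 0 < hg chi x)).card + (X.filter (fun x => hg chi x < 0)).card := by
      exact_mod_cast e2.symm
    rw [hcp, hcn] at e7
    rw [e6, e7]; ring
  -- deviations
  have hs1 := s1_num k e y (DD chi B') w (GL.FF B') np nm hkpos he0 h4 hy0 hw0 hN hD hFw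
    (by linarith)
  -- from `B'` to `B`
  have hdA : ((X \ B).card : ℤ) ≤ (X \ B').card := by
    exact_mod_cast card_le_card (sdiff_subset_sdiff subset_rfl hsubB)
  have hdZ : ((B \ X).card : ℤ) ≤ (B' \ X).card + w := by
    have h1 : B \ X ⊆ (B' \ X) ∪ W := by
      intro x hx
      rw [mem_sdiff] at hx
      rw [← hun, mem_union] at hx
      rw [mem_union, mem_sdiff]
      rcases hx.1 with h | h
      · left; exact ⟨h, hx.2⟩
      · right; exact h
    have h2 := (card_le_card h1).trans (card_union_le _ _)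
    rw [hw]
    exact_mod_cast h2
  have hA' : ((X \ B').card : ℤ) ≤ e + y := by
    have : (0 : ℤ) ≤ ((B' \ X).card : ℤ) := by positivity
    linarith
  -- the structure of `X`
  obtain ⟨hc1, hc2, hc3⟩ := closure chi B' hB' K KK hKK hKL k e hk he h4 hF'
  have hthc : ∀ x y : G, y - x ∈ K → th K B' y = th K B' x := by
    intro x y hxy
    unfold th
    congr 2
    refine filter_congr fun z _ => ?_
    constructor
    · intro h
      have : z - x = (z - y) + (y - x) := by abel
      rw [this]; exact K.add_mem h hxy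
    · intro h
      have : z - y = (z - x) - (y - x) := by abel
      rw [this]; exact K.sub_mem h hxy
  have hmem : ∀ x, x ∈ X ↔ (Nat.card K : ℤ) < 2 * th K B' x := by
    intro x; rw [hX]; unfold Maj; simp
  have hnwX : NoWrap chi X := by
    intro x hx
    rw [hmem] at hx
    have h1 : 0 < th K B' x := by
      have : (0 : ℤ) ≤ Nat.card K := by positivity
      linarith
    unfold th at h1
    have h2 : (B'.filter (fun z => z - x ∈ K)).Nonempty := by
      rw [← card_pos]; exact_mod_cast h1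
    obtain ⟨z, hz⟩ := h2
    rw [mem_filter] at hz
    have h3 := hKL _ hz.2
    rw [map_sub, sub_eq_zero] at h3
    rw [← h3]
    exact hB' z hz.1
  have h0X : (0 : G) ∈ X := (hz1 0 (map_zero _)).2 K.zero_mem
  obtain ⟨a, ha, hap, _⟩ := ap_struct chi K hKL X hnwX h0X
    (fun x hx y hxy => by rw [hmem] at hx ⊢; rw [hthc x y hxy]; exact hx) hone hc1 hc2 hc3 k hkK
    np nm hN hcp hcn
  -- the subgroup generated by `K` and `a`
  set M := K ⊔ AddSubgroup.zmultiples a with hM
  have hMmem : ∀ x, x ∈ M ↔ ∃ i : ℤ, x - i • a ∈ K := by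
    intro x
    rw [hM, AddSubgroup.mem_sup]
    constructor
    · rintro ⟨y, hy, z, hz, rfl⟩
      obtain ⟨i, rfl⟩ := AddSubgroup.mem_zmultiples_iff.1 hz
      exact ⟨i, by simpa using hy⟩
    · rintro ⟨i, hi⟩
      exact ⟨_, hi, i • a, AddSubgroup.mem_zmultiples_iff.2 ⟨i, rfl⟩, by simp⟩
  have hXM : ∀ x ∈ X, x ∈ M := by
    intro x hx
    obtain ⟨i, _, _, h3⟩ := (hap x).1 hx
    exact (hMmem x).2 ⟨i, h3⟩
  by_cases hMt : M = ⊤
  swap
  · refine glue_ap IH B X M hMt hXM ?_
    have h1 : 2 * ((B \ X).card : ℤ) + (X \ B).card ≤ X.card := by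
      rw [hXc]
      have h2 : (2 : ℤ) * k ≤ (np + nm + 1) * k := by
        have : (2 : ℤ) ≤ np + nm + 1 := by exact_mod_cast (by omega : 2 ≤ np + nm + 1)
        exact mul_le_mul_of_nonneg_right this hkpos.le
      rcases hs1 with ⟨_, h3, _⟩ | ⟨_, h3, _⟩ <;> linarith
    exact_mod_cast h1
  · obtain ⟨q, hq0, phi, hphis, hpha, hker, hcardG⟩ := exists_phi K a (fun x => by
      have : x ∈ M := by rw [hMt]; exact AddSubgroup.mem_top _
      exact (hMmem x).1 this)
    have hphneg : ∀ x, (-phi) x = 0 ↔ x ∈ K := by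
      intro x
      rw [AddMonoidHom.neg_apply, neg_eq_zero]; exact hker x
    -- the part missing in `K`
    have hp0 : ∀ psi : G →+ ZMod q, (∀ x, psi x = 0 ↔ x ∈ K) →
        4 * (((X \ B).filter (fun x => hg psi x = 0)).card : ℤ) ≤ Nat.card K := by
      intro psi hpsi
      rw [← hkK]
      have h1 : (X \ B).filter (fun x => hg psi x = 0) ⊆ KK \ lev chi B' 0 := by
        intro x hx
        rw [mem_filter, mem_sdiff] at hx
        have h2 : x ∈ K := (hpsi x).1 ((ZMod.valMinAbs_eq_zero _).1 hx.2)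
        rw [mem_sdiff, hKK]
        refine ⟨h2, fun h3 => hx.1.2 (hsubB ?_)⟩
        exact (mem_filter.1 h3).1
      have h2 : (((X \ B).filter (fun x => hg psi x = 0)).card : ℤ) ≤
          ((KK \ lev chi B' 0).card : ℤ) := by exact_mod_cast card_le_card h1
      have h3 : (0 : ℤ) ≤ ((lev chi B' 0 \ KK).card : ℤ) := by positivity
      linarith
    have hrem6 : ∀ (psi : G →+ ZMod q) (c : G), psi c = 1 → (∀ x, psi x = 0 ↔ x ∈ K) → q = 6 →
        5 * GL.FF B + 13 * (((B.filter (fun x => (q : ℤ) ≤ 3 * |hg psi x|)).card : ℤ)) ^ 2 ≤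
        5 * GL.FF (B.filter (fun x => 3 * |hg psi x| < (q : ℤ))) := by
      intro psi c hc hpsi hq6
      subst hq6
      obtain ⟨hm6, hh⟩ := six_hg chi hsurj hm K hKL psi c hc hpsi
      have e1 : B.filter (fun x => ((6 : ℕ) : ℤ) ≤ 3 * |hg psi x|) = W := by
        rw [hW]
        refine filter_congr fun x _ => ?_
        rw [hh x, hm6]
      have e2 : B.filter (fun x => 3 * |hg psi x| < ((6 : ℕ) : ℤ)) = B' := by
        rw [hB'def]
        refine filter_congr fun x _ => ?_
        rw [hh x, hm6]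
      rw [e1, e2, ← hw]
      exact hrem
    rcases le_total nm np with hle | hle
    · refine direct phi K hker a hpha nm np hle ?_ (by omega) X B hap ?_ hcardG hn ?_
        (hp0 phi hker) (hrem6 phi a hpha hker)
      · rcases hs1 with ⟨h3, _, _⟩ | ⟨h3, _, _⟩ <;> omega
      · rw [hXc, hkK]
      · rw [← hkK]
        rcases hs1 with ⟨h3, h5, h6⟩ | ⟨h3, h5, h6⟩
        · left; exact ⟨h3.symm, by linarith, by linarith⟩
        · right; exact ⟨by omega, by linarith, by linarith⟩
    · have hap' := aps_neg hap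
      have hpha' : (-phi) (-a) = 1 := by simp [hpha]
      refine direct (-phi) K hphneg (-a) hpha' np nm hle ?_ (by omega) X B hap' ?_ hcardG hn ?_
        (hp0 (-phi) hphneg) (hrem6 (-phi) (-a) hpha' hphneg)
      · rcases hs1 with ⟨h3, _, _⟩ | ⟨h3, _, _⟩ <;> omega
      · rw [hXc, hkK]; ring
      · rw [← hkK]
        rcases hs1 with ⟨h3, h5, h6⟩ | ⟨h3, h5, h6⟩
        · left; exact ⟨h3, by linarith, by linarith⟩
        · right; exact ⟨by omega, by linarith, by linarith⟩

end near

end Pool.Agent.ST
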